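import Mathlib

set_option autoImplicit false

namespace Pool.Agent.Results.MP_05361d_gt.Yes

open Set Filter Topology Complex

universe u v

/-- open cover -/
def IsCover {X : Type*} [TopologicalSpace X] (U : Set (Set X)) : Prop :=
  (∀ s ∈ U, IsOpen s) ∧ ⋃₀ U = univ

def Refines {X : Type*} (V U : Set (Set X)) : Prop := ∀ s ∈ V, ∃ t ∈ U, s ⊆ t

/-- the order of U is at most m -/
def OrderLE {X : Type*} (U : Set (Set X)) (m : ℕ) : Prop :=
  ∀ F ⊆ U, (⋂₀ F).Nonempty → F.encard ≤ m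

/-- covering dimension at most m -/
def DimLE (X : Type*) [TopologicalSpace X] (m : ℕ) : Prop :=
  ∀ U : Set (Set X), IsCover U → ∃ V, IsCover V ∧ Refines V U ∧ OrderLE V (m + 1)

def IsUMap {X Y : Type*} [TopologicalSpace X] [TopologicalSpace Y] (U : Set (Set X)) (f : X → Y) :
    Prop :=
  Continuous f ∧ ∃ V : Set (Set Y), IsCover V ∧ Refines ((fun s => f ⁻¹' s) '' V) U

def KLike (K : Set TopCat.{u}) (X : Type v) [TopologicalSpace X] : Prop :=
  ∀ U : Set (Set X), IsCover U → ∃ Y ∈ K, ∃ f : X → Y, Function.Surjective f ∧ IsUMap U f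

def NKLike (K : Set TopCat.{u}) (n : ℕ) (X : Type v) [TopologicalSpace X] : Prop :=
  ∀ U : Set (Set X), IsCover U → U.encard ≤ n →
    ∃ Y ∈ K, ∃ f : X → Y, Function.Surjective f ∧ IsUMap U f

variable {K : Set TopCat.{u}} {n k : ℕ} {X : Type v} [TopologicalSpace X]

lemma ind {ι : Type*} (h : NKLike K n X) (G : ι → Set X) (o : ∀ i, IsOpen (G i))
    (c : ∀ x, ∃ i, x ∈ G i) (hn : (range G).encard ≤ n) :
    ∃ Y ∈ K, ∃ f : X → Y, Function.Surjective f ∧ Continuous f ∧ ∃ V : Set (Set Y), IsCover V ∧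
      ∀ s ∈ V, ∃ i, f ⁻¹' s ⊆ G i := by
  obtain ⟨Y, hY, f, f1, f2, V, v1, v2⟩ := h (range G) ⟨forall_mem_range.2 o, by
    rw [sUnion_range]; exact eq_univ_of_forall fun x => mem_iUnion.2 (c x)⟩ hn
  refine ⟨Y, hY, f, f1, f2, V, v1, fun s hs => ?_⟩
  obtain ⟨_, ⟨i, rfl⟩, hi⟩ := v2 _ ⟨s, hs, rfl⟩
  exact ⟨i, hi⟩

lemma IsCover.ex {Y : Type*} [TopologicalSpace Y] {V : Set (Set Y)} (h : IsCover V) (y : Y) :
    ∃ s ∈ V, y ∈ s := mem_sUnion.1 (h.2 ▸ mem_univ y)

lemma shr {ι : Type*} (hK : ∀ Y ∈ K, DimLE Y k) (h : NKLike K n X) (G : ι → Set X)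
    (o : ∀ i, IsOpen (G i)) (c : ∀ x, ∃ i, x ∈ G i) (hn : (range G).encard ≤ n) :
    ∃ G' : ι → Set X, (∀ i, IsOpen (G' i)) ∧ (∀ x, ∃ i, x ∈ G' i) ∧ (∀ i, G' i ⊆ G i) ∧
      ∀ x, {i | x ∈ G' i}.encard ≤ (k + 1 : ℕ) := by
  obtain ⟨Y, hY, f, -, f2, V, v1, v2⟩ := ind h G o c hn
  obtain ⟨W, w1, w2, w3⟩ := hK Y hY V v1
  have this (s : W) : ∃ i, f ⁻¹' s ⊆ G i := by
    obtain ⟨t, ht, h⟩ := w2 _ s.2
    exact (v2 t ht).imp fun i hi => (preimage_mono h).trans hi
  choose j hj using this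
  refine ⟨fun i => ⋃ s ∈ {s | j s = i}, f ⁻¹' s.1, fun i => isOpen_biUnion fun s _ =>
    (w1.1 _ s.2).preimage f2, fun x => ?_, fun i => iUnion₂_subset fun s hs => hs ▸ hj s,
    fun x => ?_⟩
  · obtain ⟨s, hs, hx⟩ := w1.ex (f x)
    exact ⟨j ⟨s, hs⟩, mem_iUnion₂.2 ⟨⟨s, hs⟩, rfl, hx⟩⟩
  · have := w3 (Subtype.val '' {s : W | f x ∈ s.1}) (Subtype.coe_image_subset _ _)
      ⟨f x, by rintro _ ⟨s, hs, rfl⟩; exact hs⟩
    rw [Subtype.val_injective.encard_image] at this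
    refine le_trans (encard_le_encard fun i hi => ?_) ((encard_image_le j _).trans this)
    obtain ⟨s, hs, hx⟩ := mem_iUnion₂.1 hi
    exact ⟨s, hx, hs⟩

open Classical in
lemma hemm {ι : Type*} (hK : ∀ Y ∈ K, DimLE Y k) (h : NKLike K n X) (hn : k + 3 ≤ n)
    (U : ι → Set X) (o : ∀ i, IsOpen (U i)) (c : ∀ x, ∃ i, x ∈ U i) (A : Finset (Finset ι)) :
    ∃ V : ι → Set X, (∀ i, IsOpen (V i)) ∧ (∀ x, ∃ i, x ∈ V i) ∧ (∀ i, V i ⊆ U i) ∧
      ∀ S ∈ A, S.card = k + 2 → ∀ x, ∃ i ∈ S, x ∉ V i := by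
  induction A using Finset.induction_on with
  | empty => exact ⟨U, o, c, fun _ => le_rfl, by simp⟩
  | insert S A _ ih =>
    obtain ⟨V, v1, v2, v3, v4⟩ := ih
    by_cases hS : S.card = k + 2
    swap
    · exact ⟨V, v1, v2, v3, by simpa [hS] using v4⟩
    obtain ⟨s, hs⟩ : S.Nonempty := Finset.card_pos.1 (by omega)
    let G : ι → Set X := fun i => if i ∈ S then V i ∪ ⋃ j ∉ S, V j else ∅
    obtain ⟨G', g1, g2, g3, g4⟩ := shr hK h G (fun i => by
      simp only [G]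
      split_ifs
      exacts [(v1 i).union (isOpen_biUnion fun j _ => v1 j), isOpen_empty]) (fun x => by
      obtain ⟨i, hi⟩ := v2 x
      by_cases h : i ∈ S
      · exact ⟨i, by simp [G, h, hi]⟩
      · exact ⟨s, by simpa [G, hs] using .inr ⟨i, h, hi⟩⟩) (by
      refine (encard_le_encard (t := insert ∅ (G '' S)) ?_).trans ((encard_insert_le _ _).trans ?_)
      · rintro _ ⟨i, rfl⟩
        by_cases h : i ∈ S
        exacts [.inr ⟨i, h, rfl⟩, .inl (if_neg h)]
      · refine (add_le_add_left (encard_image_le _ _) _).trans ?_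
        rw [encard_coe_eq_coe_finsetCard, hS]
        exact_mod_cast hn)
    have sub (i) : (if i ∈ S then V i ∩ G' i else V i) ⊆ V i := by
      split_ifs
      exacts [inter_subset_left, le_rfl]
    refine ⟨fun i => if i ∈ S then V i ∩ G' i else V i, fun i => ?_, fun x => ?_,
      fun i => (sub i).trans (v3 i), fun T hT e x => ?_⟩
    · dsimp only
      split_ifs
      exacts [(v1 i).inter (g1 i), v1 i]
    · obtain ⟨i, hi⟩ := g2 x
      have := g3 i hi
      by_cases h : i ∈ S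
      · rcases (by simpa [G, h] using this : x ∈ V i ∨ ∃ j ∉ S, x ∈ V j) with h' | ⟨j, hj, h'⟩
        exacts [⟨i, by simp [h, h', hi]⟩, ⟨j, by simp [hj, h']⟩]
      · simp [G, h] at this
    · rcases Finset.mem_insert.1 hT with rfl | hT
      · by_contra! H
        have := (encard_le_encard (s := T) fun i hi => by
          have := H i hi
          rw [if_pos (by exact hi)] at this
          exact this.2).trans (g4 x)
        rw [encard_coe_eq_coe_finsetCard, e] at this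
        norm_cast at this
        omega
      · obtain ⟨i, hi, h⟩ := v4 T hT e x
        exact ⟨i, hi, fun h' => h (sub i h')⟩

open Classical in
lemma ostr {ι : Type*} [Fintype ι] [CompactSpace X] [T2Space X] (V : ι → Set X)
    (o : ∀ i, IsOpen (V i)) (c : ∀ x, ∃ i, x ∈ V i)
    (h : ∀ S : Finset ι, S.card = k + 2 → ∀ x, ∃ i ∈ S, x ∉ V i) :
    ∃ (O : Fin (k + 2) → Set X) (φ : C(X, Fin (k + 2) → ℝ)), (∀ l, IsOpen (O l)) ∧
      (∀ x, ∃ l, x ∈ O l) ∧ ∀ l, ∀ x ∈ O l, ∃ i, ∀ y ∈ O l, |φ x l - φ y l| < 5 → y ∈ V i := by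
  obtain ⟨p, hp⟩ := exists_continuous_forall_mem_convex_of_local_const (X := X) (E := ι → ℝ)
    (t := fun x => {v | ∀ i, x ∉ V i → v i ≤ 0} ∩ {v | 0 < ∑ i, v i}) (fun x => by
      refine .inter (fun a ha b hb s t hs ht _ i hi => ?_) (convex_halfSpace_gt ⟨fun a b => by
        simp [Finset.sum_add_distrib], fun a b => by simp [Finset.mul_sum]⟩ 0)
      have := ha i hi
      have := hb i hi
      simp only [Pi.add_apply, Pi.smul_apply, smul_eq_mul]
      nlinarith) fun x => by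
      obtain ⟨i, hi⟩ := c x
      refine ⟨Pi.single i 1, ((o i).eventually_mem hi).mono fun y hy => ⟨fun j hj => ?_, by simp⟩⟩
      rw [Pi.single_eq_of_ne (by rintro rfl; exact hj hy)]
  let J := {S : Finset ι // S.Nonempty ∧ S.card < k + 2}
  let W : J → Set X := fun S => ⋂ s ∈ S.1, {x | 0 < p x s} ∩ ⋂ t ∈ S.1ᶜ, {x | p x t < p x s}
  have mW (S x) : x ∈ W S ↔ ∀ s ∈ S.1, 0 < p x s ∧ ∀ t ∉ S.1, p x t < p x s := by simp [W]
  obtain ⟨Z, z1, z2, z3⟩ := exists_iUnion_eq_closure_subset (u := W) (fun S =>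
    isOpen_biInter_finset fun s _ => (isOpen_lt (by fun_prop) (by fun_prop)).inter
      (isOpen_biInter_finset fun t _ => isOpen_lt (by fun_prop) (by fun_prop)))
    (fun _ => toFinite _) (eq_univ_of_forall fun x => by
      have : Nonempty ι := (c x).nonempty
      obtain ⟨s, hs⟩ := Finite.exists_max (p x)
      have pos : 0 < p x s := by
        by_contra! H
        exact (hp x).2.not_ge (Finset.sum_nonpos fun i _ => (hs i).trans H)
      refine mem_iUnion.2 ⟨⟨Finset.univ.filter (p x · = p x s), ⟨s, by simp⟩, ?_⟩, (mW _ _).2 ?_⟩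
      · by_contra! H
        obtain ⟨T, h1, h2⟩ := Finset.exists_subset_card_eq H
        obtain ⟨i, hi, h3⟩ := h T h2 x
        have := (hp x).1 i h3
        rw [(Finset.mem_filter.1 (h1 hi)).2] at this
        linarith
      · simp only [Finset.mem_filter, Finset.mem_univ, true_and]
        exact fun t ht => ⟨ht ▸ pos, fun r hr => ht ▸ (hs r).lt_of_ne hr⟩)
  let col : J → Fin (k + 2) := fun S => ⟨_, S.2.2⟩
  have dis (S T x) (e : col S = col T) (hS : x ∈ W S) (hT : x ∈ W T) : S = T := by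
    have e : S.1.card = T.1.card := congrArg Fin.val e
    by_contra H
    obtain ⟨s, s1, s2⟩ := Finset.not_subset.1 fun h =>
      H (Subtype.ext (Finset.eq_of_subset_of_card_le h e.ge))
    obtain ⟨t, t1, t2⟩ := Finset.not_subset.1 fun h =>
      H (Subtype.ext (Finset.eq_of_subset_of_card_le h e.le).symm)
    exact (((mW _ _).1 hS s s1).2 t t2).not_gt (((mW _ _).1 hT t t1).2 s s2)
  obtain ⟨e, he⟩ := exists_injective_nat J
  obtain ⟨φ, hφ⟩ := exists_continuous_forall_mem_convex_of_local_const (X := X)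
    (E := Fin (k + 2) → ℝ) (t := fun x => {v | ∀ S, x ∈ closure (Z S) → v (col S) = 5 * e S})
    (fun x a ha b hb s t _ _ st S hS => by
      simp only [Pi.add_apply, Pi.smul_apply, smul_eq_mul, ha S hS, hb S hS, ← add_mul, st,
        one_mul]) fun x => by
      refine ⟨fun l => if h : ∃ S, col S = l ∧ x ∈ closure (Z S) then 5 * e h.choose else 0, ?_⟩
      have : ∀ᶠ y in 𝓝 x, ∀ S, x ∉ closure (Z S) → y ∉ closure (Z S) :=
        eventually_all.2 fun S => by
          by_cases h : x ∈ closure (Z S)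
          · simp [h]
          · exact (isClosed_closure.isOpen_compl.eventually_mem h).mono fun y hy _ => hy
      refine this.mono fun y hy S hS => ?_
      have h : ∃ T, col T = col S ∧ x ∈ closure (Z T) := ⟨S, rfl, not_not.1 fun h => hy S h hS⟩
      change dite _ _ _ = _
      rw [dif_pos h, dis _ S x h.choose_spec.1 (z3 _ h.choose_spec.2)
        (z3 _ (not_not.1 fun h => hy S h hS))]
  refine ⟨fun l => ⋃ S ∈ {S | col S = l}, Z S, φ, fun l => isOpen_biUnion fun S _ => z2 S,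
    fun x => ?_, fun l x hx => ?_⟩
  · obtain ⟨S, hS⟩ := mem_iUnion.1 (z1 ▸ mem_univ x)
    exact ⟨_, mem_biUnion (x := S) rfl hS⟩
  · obtain ⟨S, rfl, hS⟩ := mem_iUnion₂.1 hx
    obtain ⟨i, hi⟩ := S.2.1
    refine ⟨i, fun y hy d => ?_⟩
    obtain ⟨T, hT, hy⟩ := mem_iUnion₂.1 hy
    rw [hφ x S (subset_closure hS), ← show col T = col S from hT, hφ y T (subset_closure hy),
      abs_lt] at d
    obtain rfl : S = T := he (by
      have h1 : (e S : ℝ) < e T + 1 := by linarith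
      have h2 : (e T : ℝ) < e S + 1 := by linarith
      norm_cast at h1 h2
      omega)
    exact not_not.1 fun h => ((hp y).1 i h).not_gt ((mW _ _).1 (z3 _ (subset_closure hy)) i hi).1

lemma lift {Y : Type*} [TopologicalSpace Y] [ContractibleSpace Y] (G : C(Y, ℂ)) (h : ∀ y, G y ≠ 0) :
    ∃ L : C(Y, ℂ), ∀ y, exp (L y) = G y := by
  obtain ⟨y, ⟨H⟩⟩ := id_nullhomotopic Y
  let G' : C(Y, {z : ℂ // z ≠ 0}) := ⟨fun y => ⟨G y, h y⟩, by fun_prop⟩
  have e (a : Y) : (G'.comp H.symm.toContinuousMap) (0, a) =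
      ⟨_, (ContinuousMap.const Y (log (G y)) a).exp_ne_zero⟩ :=
    Subtype.ext (by simp [G', exp_log (h y)])
  refine ⟨(isCoveringMap_exp.liftHomotopy _ _ e).comp ⟨fun a => (1, a), by fun_prop⟩, fun a => ?_⟩
  simpa [G'] using congrArg Subtype.val
    (congrFun (isCoveringMap_exp.liftHomotopy_lifts _ _ e) (1, a))

lemma band [PreconnectedSpace X] {θ : X → ℝ} (c : Continuous θ) (h : ∀ x, 0 < Real.cos (θ x))
    (x y : X) : θ x - θ y < Real.pi := by
  by_contra! H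
  obtain ⟨z, hz⟩ := intermediate_value_univ y x c
    (show θ y + Real.pi ∈ _ from ⟨by linarith [Real.pi_pos], by linarith⟩)
  have := h z
  rw [hz, Real.cos_add_pi] at this
  linarith [h y]

theorem result (k : ℕ) : ∃ n : ℕ, ∀ K : Set TopCat.{u},
    (∀ Y ∈ K, CompactSpace Y ∧ T2Space Y ∧ ContractibleSpace Y ∧ DimLE Y k) →
    ∀ (X : Type v) [TopologicalSpace X] [CompactSpace X] [T2Space X] [ConnectedSpace X],
      KLike K X ↔ NKLike K n X := by
  let N := Fin (k + 2) × (Fin (k + 2) → Fin 4)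
  refine ⟨k + 3 + Fintype.card N, fun K hK X _ _ _ _ => ⟨fun h U hU _ => h U hU, fun h U hU => ?_⟩⟩
  obtain ⟨t, ht⟩ := isCompact_univ.elim_finite_subcover (fun s : U => s.1) (fun s => hU.1 _ s.2)
    (by rw [← sUnion_eq_iUnion, hU.2])
  obtain ⟨V, v1, v2, v3, v4⟩ := hemm (fun Y hY => (hK Y hY).2.2.2) h (by omega)
    (fun i : t => i.1.1) (fun i => hU.1 _ i.1.2) (fun x => by
      obtain ⟨i, hi, h⟩ := mem_iUnion₂.1 (ht (mem_univ x))
      exact ⟨⟨i, hi⟩, h⟩) Finset.univ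
  obtain ⟨O, φ, o1, o2, o3⟩ := ostr V v1 v2 fun S => v4 S (Finset.mem_univ _)
  let d : Fin 4 → ℂ := ![1, -1, I, -I]
  have hd (z : ℂ) (hz : z ≠ 0) : ∃ a, 0 < (d a * z).re := by
    by_contra! H
    have h0 := H 0
    have h1 := H 1
    have h2 := H 2
    have h3 := H 3
    simp [d] at h0 h1 h2 h3
    exact hz (ext (h0.antisymm h1) (h3.antisymm h2))
  obtain ⟨Y, hY, f, f1, f2, W, w1, w2⟩ := ind h
    (fun q : N => O q.1 ∩ ⋂ m, {x | 0 < (d (q.2 m) * exp (-φ x m * I)).re})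
    (fun q => (o1 _).inter (isOpen_iInter_of_finite fun m => isOpen_lt (by fun_prop) (by fun_prop)))
    (fun x => by
      obtain ⟨l, hl⟩ := o2 x
      choose a ha using fun m => hd _ (exp_ne_zero (-φ x m * I))
      exact ⟨(l, a), hl, mem_iInter.2 ha⟩) (by
      rw [← image_univ]
      refine (encard_image_le _ _).trans ?_
      rw [encard_univ, ENat.card_eq_coe_fintype_card]
      exact_mod_cast le_add_self)
  obtain ⟨_, _, _, -⟩ := hK Y hY
  have this (m) : ∃ L : C(Y, ℂ), ∀ x x', (L (f x)).im - φ x m - ((L (f x')).im - φ x' m) <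
      Real.pi := by
    obtain ⟨G, hG⟩ := exists_continuous_forall_mem_convex_of_local_const (X := Y) (E := ℂ)
      (t := fun y => ⋂ x ∈ f ⁻¹' {y}, {w | 0 < (w * exp (-φ x m * I)).re})
      (fun y => convex_iInter₂ fun x _ => convex_halfSpace_gt
        ⟨fun a b => by rw [add_mul, add_re], fun a b => by rw [smul_mul_assoc, smul_re]⟩ 0)
      fun y => by
        obtain ⟨s, hs, hy⟩ := w1.ex y
        obtain ⟨q, hq⟩ := w2 s hs
        exact ⟨d (q.2 m), ((w1.1 s hs).eventually_mem hy).mono fun z hz => mem_iInter₂.2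
          fun x hx => mem_iInter.1 (hq (show f x ∈ s from hx ▸ hz)).2 m⟩
    have hG (x) : 0 < (G (f x) * exp (-φ x m * I)).re := mem_iInter₂.1 (hG (f x)) x rfl
    obtain ⟨L, hL⟩ := lift G fun y e => by
      obtain ⟨x, rfl⟩ := f1 y
      simpa [e] using hG x
    refine ⟨L, band (θ := fun x => (L (f x)).im - φ x m) (by fun_prop) fun x => ?_⟩
    have := hG x
    rw [← hL, ← exp_add, exp_re] at this
    simpa [sub_eq_add_neg] using (mul_pos_iff_of_pos_left (Real.exp_pos _)).1 this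
  choose L hL using this
  refine ⟨Y, hY, f, f1, f2, {s | IsOpen s ∧ ∃ u ∈ U, f ⁻¹' s ⊆ u}, ⟨fun s hs => hs.1,
    eq_univ_of_forall fun y => ?_⟩, by rintro _ ⟨s, hs, rfl⟩; exact hs.2⟩
  obtain ⟨s, hs, hy⟩ := w1.ex y
  obtain ⟨q, hq⟩ := w2 s hs
  obtain ⟨x, rfl⟩ := f1 y
  obtain ⟨i, hi⟩ := o3 _ x (hq hy).1
  refine ⟨s ∩ {y | |(L q.1 y).im - (L q.1 (f x)).im| < 1}, ⟨(w1.1 s hs).inter
    (isOpen_lt (by fun_prop) (by fun_prop)), _, i.1.2, fun z hz => v3 i (hi z (hq hz.1).1 ?_)⟩,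
    hy, by simp⟩
  have := abs_lt.1 (mem_setOf.1 hz.2)
  exact abs_lt.2 ⟨by linarith [hL q.1 x z, Real.pi_lt_four], by
    linarith [hL q.1 z x, Real.pi_lt_four]⟩

end Pool.Agent.Results.MP_05361d_gt.Yes
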